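import Pool.Agent.ATW.Stmts

/-!
# Squad ATW, row ARW: arithmetic modulo four
-/

set_option autoImplicit false

noncomputable section

namespace Pool.Agent.PP.TW.H32

open Pool.Agent.PP.TW

theorem arw : ArwStmt := by
  intro p q p' q' p0 q0 p0' q0' hp hp' h0 h0' h1 h2 h3
  obtain ⟨a, rfl⟩ := hp
  obtain ⟨a', rfl⟩ := hp'
  obtain ⟨b, rfl⟩ := h0
  obtain ⟨b', rfl⟩ := h0'
  -- the parity of `q0 + q0'`
  have e2 : (2 * b + 1) * (2 * b + 1) + (2 * b' + 1) * (2 * b' + 1) +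
      2 * (q0 * q0 + q0' * q0') = 4 * (b * b + b + b' * b' + b') + 2 + 2 * (q0 * q0 + q0' * q0') := by
    ring
  rw [e2] at h2
  have h4 : (q0 * q0 + q0' * q0') % 2 = 0 := by omega
  have h5 : (q0 + q0') % 2 = 0 := by
    have e : q0 * q0 + q0' * q0' = (q0 + q0') + (q0 * (q0 - 1) + q0' * (q0' - 1)) := by ring
    have e1 : ∀ x : ℤ, x * (x - 1) % 2 = 0 := fun x => by
      have := Int.even_mul_pred_self x
      exact Int.even_iff.1 this
    have e3 := e1 q0
    have e4 := e1 q0'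
    rw [e] at h4
    omega
  -- the parity of `q + q'`
  have h6 : (q + q') % 2 = 0 := by
    obtain ⟨k, hk⟩ := h3
    have e : q * (2 * b + 1) - (2 * a + 1) * q0 + (q' * (2 * b' + 1) - (2 * a' + 1) * q0') =
        (q + q') - (q0 + q0') + 2 * (q * b - a * q0 + q' * b' - a' * q0') := by ring
    rw [e] at hk
    omega
  obtain ⟨x, hx⟩ : ∃ x, q' = 2 * x - q := ⟨(q + q') / 2, by omega⟩
  obtain ⟨y, hy⟩ : ∃ y, q0' = 2 * y - q0 := ⟨(q0 + q0') / 2, by omega⟩
  have e7 : (2 * a + 1) * (2 * b + 1) + (2 * a' + 1) * (2 * b' + 1) + 2 * (q * q0 + q' * q0') =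
      4 * (a * b + a' * b' + q * q0 - x * q0 - y * q + 2 * x * y) + 2 * (a + b + a' + b') + 2 := by
    rw [hx, hy]
    ring
  rw [e7] at h1
  have h8 : (a + b + a' + b') % 2 = 0 := by omega
  have h9 : (2 * a + 1) * (2 * b + 1) ≡ (2 * a' + 1) * (2 * b' + 1) [ZMOD 4] := by
    rw [Int.modEq_iff_dvd]
    have e : (2 * a' + 1) * (2 * b' + 1) - (2 * a + 1) * (2 * b + 1) =
        4 * (a' * b' - a * b) + 2 * (a' + b' - a - b) := by ring
    rw [e]
    obtain ⟨z, hz⟩ : ∃ z, a' + b' - a - b = 2 * z := ⟨(a' + b' - a - b) / 2, by omega⟩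
    rw [hz]
    exact ⟨a' * b' - a * b + z, by ring⟩
  refine ⟨h9, fun s hs hsm => ?_⟩
  -- `s` is one plus twice the sum
  rw [Int.modEq_iff_dvd] at hsm
  obtain ⟨t, ht⟩ := hsm
  have e10 : s = 4 * (b * b' - t) + 2 * (b + b') + 1 := by
    have : (2 * b + 1) * (2 * b' + 1) = 4 * (b * b') + 2 * (b + b') + 1 := by ring
    rw [this] at ht
    omega
  have key : (2 * a + 1 + s * (2 * a' + 1)) % 4 = 2 := by
    have e : 2 * a + 1 + s * (2 * a' + 1) =
        4 * ((b * b' - t) * (2 * a' + 1) + (b + b') * a') + 2 * (a + a' + b + b') + 2 := by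
      rw [e10]
      ring
    rw [e]
    omega
  have h11 : 2 * a + 1 + s * (2 * a' + 1) ≤ -2 ∨ 2 ≤ 2 * a + 1 + s * (2 * a' + 1) := by omega
  generalize 2 * a + 1 + s * (2 * a' + 1) = X at h11
  rcases h11 with h | h
  · nlinarith
  · nlinarith

end Pool.Agent.PP.TW.H32
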